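import Pool.Agent.Lib.MP_b9430d_co.FR.GauK

/-!
# Fresnel smoothing: Fubini, the diagonal terms and the far terms
-/

set_option autoImplicit false

open MeasureTheory Complex Real Set

namespace Pool.Agent.Lib.FR

/-- Bounded measurable functions with support in a disc. -/
structure Good (n ρ : ℝ) (h : ℂ → ℝ) : Prop where
  meas : Measurable h
  bd : ∀ x, |h x| ≤ n
  supp : ∀ x, ρ < ‖x‖ → h x = 0

theorem Good.n_nonneg {n ρ : ℝ} {h : ℂ → ℝ} (H : Good n ρ h) : 0 ≤ n :=
  (abs_nonneg _).trans (H.bd 0)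

private theorem vol_ball {ρ : ℝ} (hρ : 0 ≤ ρ) : volume.real (Metric.closedBall (0 : ℂ) ρ) = π * ρ ^ 2 := by
  unfold Measure.real
  rw [Complex.volume_closedBall, ENNReal.toReal_mul, ENNReal.toReal_pow, ENNReal.toReal_ofReal hρ]
  rw [mul_comm]
  congr 1

theorem Good.abs_le {n ρ : ℝ} {h : ℂ → ℝ} (H : Good n ρ h) (x : ℂ) :
    |h x| ≤ (Metric.closedBall (0 : ℂ) ρ).indicator (fun _ => n) x := by
  by_cases hx : x ∈ Metric.closedBall (0 : ℂ) ρ
  · rw [Set.indicator_of_mem hx]
    exact H.bd x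
  · rw [Set.indicator_of_notMem hx]
    rw [Metric.mem_closedBall, dist_zero_right, not_le] at hx
    rw [H.supp x hx, abs_zero]

private theorem integrable_ind (n ρ : ℝ) :
    Integrable ((Metric.closedBall (0 : ℂ) ρ).indicator (fun _ => n)) := by
  rw [integrable_indicator_iff Metric.isClosed_closedBall.measurableSet]
  exact integrableOn_const (isCompact_closedBall _ _).measure_lt_top.ne

theorem Good.integrable {n ρ : ℝ} {h : ℂ → ℝ} (H : Good n ρ h) : Integrable h :=
  (integrable_ind n ρ).mono' H.meas.aestronglyMeasurable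
    (Filter.Eventually.of_forall fun x => by rw [Real.norm_eq_abs]; exact H.abs_le x)

theorem Good.integral_abs {n ρ : ℝ} {h : ℂ → ℝ} (H : Good n ρ h) (hρ : 0 ≤ ρ) :
    ∫ x, |h x| ≤ n * (π * ρ ^ 2) := by
  calc ∫ x, |h x| ≤ ∫ x, (Metric.closedBall (0 : ℂ) ρ).indicator (fun _ => n) x :=
        integral_mono H.integrable.abs (integrable_ind n ρ) H.abs_le
    _ = n * (π * ρ ^ 2) := by
        rw [integral_indicator Metric.isClosed_closedBall.measurableSet, setIntegral_const,
          vol_ball hρ, smul_eq_mul, mul_comm]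

theorem norm_FE_le (h : ℂ → ℝ) (a : ℝ) (w : ℂ) : ‖FE h a w‖ ≤ ∫ x, |h x| := by
  unfold FE
  refine (norm_integral_le_integral_norm _).trans (le_of_eq ?_)
  refine integral_congr_ae (Filter.Eventually.of_forall fun x => ?_)
  simp only
  rw [norm_mul, norm_e1, mul_one, Complex.norm_real, Real.norm_eq_abs]

theorem continuous_FE {n ρ : ℝ} {h : ℂ → ℝ} (H : Good n ρ h) (a : ℝ) : Continuous (FE h a) := by
  unfold FE
  refine continuous_of_dominated (bound := fun x => |h x|) ?_ ?_ ?_ ?_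
  · intro w
    have h1 : Measurable (fun x : ℂ => (h x : ℂ)) := Complex.measurable_ofReal.comp H.meas
    have h2 : Continuous (fun x : ℂ => e1 (a * ‖x - w‖ ^ 2)) :=
      continuous_e1.comp (by fun_prop)
    exact (h1.mul h2.measurable).aestronglyMeasurable
  · intro w
    refine Filter.Eventually.of_forall fun x => ?_
    rw [norm_mul, norm_e1, mul_one, Complex.norm_real, Real.norm_eq_abs]
  · exact H.integrable.abs
  · refine Filter.Eventually.of_forall fun x => ?_
    exact continuous_const.mul (continuous_e1.comp (by fun_prop))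

/-- The windowed scalar product of two Fresnel transforms. -/
noncomputable def JJ (s : ℝ) (w₀ : ℂ) (h : ℂ → ℝ) (a b : ℝ) : ℂ :=
  ∫ w, (win s w₀ w : ℂ) * (FE h a w * (starRingEnd ℂ) (FE h b w))

/-- Fubini. -/
theorem JJ_eq {n ρ : ℝ} {h : ℂ → ℝ} (H : Good n ρ h) {s : ℝ} (hs : 0 < s) (w₀ : ℂ) (a b : ℝ) :
    JJ s w₀ h a b = ∫ x, (h x : ℂ) * ∫ y, (h y : ℂ) * kab s w₀ a b x y := by
  set f : ℂ × (ℂ × ℂ) → ℂ := fun p => (win s w₀ p.1 : ℂ) *
    (((h p.2.1 : ℂ) * e1 (a * ‖p.2.1 - p.1‖ ^ 2)) *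
      ((h p.2.2 : ℂ) * (starRingEnd ℂ) (e1 (b * ‖p.2.2 - p.1‖ ^ 2)))) with hf
  have hm : Measurable f := by
    have m1 : Measurable (fun p : ℂ × (ℂ × ℂ) => (win s w₀ p.1 : ℂ)) :=
      (Complex.continuous_ofReal.comp ((continuous_win s w₀).comp continuous_fst)).measurable
    have m2 : Measurable (fun p : ℂ × (ℂ × ℂ) => (h p.2.1 : ℂ)) :=
      Complex.measurable_ofReal.comp (H.meas.comp (measurable_fst.comp measurable_snd))
    have m3 : Measurable (fun p : ℂ × (ℂ × ℂ) => (h p.2.2 : ℂ)) :=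
      Complex.measurable_ofReal.comp (H.meas.comp (measurable_snd.comp measurable_snd))
    have m4 : Measurable (fun p : ℂ × (ℂ × ℂ) => e1 (a * ‖p.2.1 - p.1‖ ^ 2)) :=
      (continuous_e1.comp (by fun_prop)).measurable
    have m5 : Measurable (fun p : ℂ × (ℂ × ℂ) =>
        (starRingEnd ℂ) (e1 (b * ‖p.2.2 - p.1‖ ^ 2))) :=
      (Complex.continuous_conj.comp (continuous_e1.comp (by fun_prop))).measurable
    exact m1.mul ((m2.mul m4).mul (m3.mul m5))
  have hi : Integrable f (volume.prod (volume.prod volume)) := by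
    have g1 : Integrable (fun p : ℂ × (ℂ × ℂ) => win s w₀ p.1 * (h p.2.1 * h p.2.2))
        (volume.prod (volume.prod volume)) :=
      (integrable_win hs w₀).mul_prod (H.integrable.mul_prod H.integrable)
    refine g1.mono hm.aestronglyMeasurable (Filter.Eventually.of_forall fun p => le_of_eq ?_)
    rw [hf]
    simp only [norm_mul, norm_e1, mul_one, RCLike.norm_conj, Complex.norm_real]
  have h1 : JJ s w₀ h a b = ∫ w, ∫ q : ℂ × ℂ, f (w, q) ∂(volume.prod volume) := by
    unfold JJ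
    refine integral_congr_ae (Filter.Eventually.of_forall fun w => ?_)
    simp only
    rw [hf]
    simp only
    rw [integral_const_mul]
    congr 1
    rw [integral_prod_mul (fun x : ℂ => (h x : ℂ) * e1 (a * ‖x - w‖ ^ 2))
      (fun y : ℂ => (h y : ℂ) * (starRingEnd ℂ) (e1 (b * ‖y - w‖ ^ 2)))]
    unfold FE
    rw [← integral_conj]
    congr 1
    refine integral_congr_ae (Filter.Eventually.of_forall fun y => ?_)
    simp only
    rw [map_mul, Complex.conj_ofReal]
  rw [h1, integral_integral_swap hi]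
  have hi2 : Integrable (fun q : ℂ × ℂ => ∫ w, f (w, q)) (volume.prod volume) :=
    hi.integral_prod_right
  rw [integral_prod _ hi2]
  refine integral_congr_ae (Filter.Eventually.of_forall fun x => ?_)
  simp only
  rw [← integral_const_mul]
  refine integral_congr_ae (Filter.Eventually.of_forall fun y => ?_)
  simp only
  unfold kab
  rw [← integral_const_mul, ← integral_const_mul]
  refine integral_congr_ae (Filter.Eventually.of_forall fun w => ?_)
  simp only
  rw [hf]
  simp only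
  ring

/-- The far terms. -/
theorem JJ_far {n ρ : ℝ} {h : ℂ → ℝ} (H : Good n ρ h) (hρ : 0 ≤ ρ) {s : ℝ} (hs : 0 < s) (w₀ : ℂ)
    (a b K : ℝ) (hK : 0 ≤ K)
    (hk : ∀ x y : ℂ, ‖x‖ ≤ ρ → ‖y‖ ≤ ρ → ‖kab s w₀ a b x y‖ ≤ K) :
    ‖JJ s w₀ h a b‖ ≤ K * (n * (π * ρ ^ 2)) ^ 2 := by
  have hn := H.n_nonneg
  set A := n * (π * ρ ^ 2) with hA
  have hA0 : 0 ≤ A := by positivity
  have h0 : ∫ x, |h x| ≤ A := H.integral_abs hρ
  rw [JJ_eq H hs]
  have h1 : ∀ x : ℂ, ‖(h x : ℂ) * ∫ y, (h y : ℂ) * kab s w₀ a b x y‖ ≤ |h x| * (K * A) := by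
    intro x
    rw [norm_mul, Complex.norm_real, Real.norm_eq_abs]
    rcases le_or_gt ‖x‖ ρ with hx | hx
    · refine mul_le_mul_of_nonneg_left ?_ (abs_nonneg _)
      refine (norm_integral_le_of_norm_le (g := fun y => K * |h y|) (H.integrable.abs.const_mul K)
        (Filter.Eventually.of_forall fun y => ?_)).trans ?_
      · rw [norm_mul, Complex.norm_real, Real.norm_eq_abs, mul_comm]
        rcases le_or_gt ‖y‖ ρ with hy | hy
        · exact mul_le_mul_of_nonneg_right (hk x y hx hy) (abs_nonneg _)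
        · rw [H.supp y hy]; simp
      · rw [integral_const_mul]
        exact mul_le_mul_of_nonneg_left h0 hK
    · rw [H.supp x hx]; simp
  refine (norm_integral_le_of_norm_le (g := fun x => |h x| * (K * A))
    (H.integrable.abs.mul_const _) (Filter.Eventually.of_forall h1)).trans ?_
  rw [integral_mul_const]
  calc (∫ x, |h x|) * (K * A) ≤ A * (K * A) := mul_le_mul_of_nonneg_right h0 (by positivity)
    _ = K * A ^ 2 := by ring

/-- The diagonal terms. -/
theorem JJ_diag {n ρ : ℝ} {h : ℂ → ℝ} (H : Good n ρ h) (hρ : 0 ≤ ρ) {s : ℝ} (hs : 0 < s) (w₀ : ℂ)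
    {a : ℝ} (ha : a ≠ 0) : ‖JJ s w₀ h a a‖ ≤ n ^ 2 * (π * ρ ^ 2) / (4 * a ^ 2) := by
  have hn := H.n_nonneg
  have h0 : ∫ x, |h x| ≤ n * (π * ρ ^ 2) := H.integral_abs hρ
  have ha2 : 0 < a ^ 2 := by positivity
  set c : ℝ := 4 * π * a ^ 2 * s ^ 2 with hc
  have hcpos : 0 < c := by positivity
  rw [JJ_eq H hs]
  have hk : ∀ x y : ℂ, ‖kab s w₀ a a x y‖ ≤ s ^ 2 * Real.exp (-(c * ‖y - x‖ ^ 2)) := by
    intro x y
    refine (norm_kab_le hs w₀ a a x y).trans (le_of_eq ?_)
    congr 2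
    have e1 : (a - a) • w₀ - (a • x - a • y) = a • (y - x) := by
      rw [sub_self, zero_smul, smul_sub]
      abel
    rw [e1, norm_smul, mul_pow, Real.norm_eq_abs, sq_abs, hc]
    field_simp
    ring
  have h1 : ∀ x : ℂ, ‖(h x : ℂ) * ∫ y, (h y : ℂ) * kab s w₀ a a x y‖ ≤
      |h x| * (n * (1 / (4 * a ^ 2))) := by
    intro x
    rw [norm_mul, Complex.norm_real, Real.norm_eq_abs]
    refine mul_le_mul_of_nonneg_left ?_ (abs_nonneg _)
    have hi : Integrable (fun y : ℂ => n * (s ^ 2 * Real.exp (-(c * ‖y - x‖ ^ 2)))) :=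
      (((integrable_gauss hcpos).comp_sub_right x).const_mul _).const_mul _
    refine (norm_integral_le_of_norm_le (g := fun y => n * (s ^ 2 * Real.exp (-(c * ‖y - x‖ ^ 2))))
      hi (Filter.Eventually.of_forall fun y => ?_)).trans (le_of_eq ?_)
    · rw [norm_mul, Complex.norm_real, Real.norm_eq_abs]
      exact mul_le_mul (H.bd y) (hk x y) (norm_nonneg _) hn
    · rw [integral_const_mul, integral_const_mul]
      have h2 := integral_sub_right_eq_self (μ := volume)
        (fun u : ℂ => Real.exp (-(c * ‖u‖ ^ 2))) x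
      rw [h2, integral_gauss hcpos, hc]
      field_simp
  refine (norm_integral_le_of_norm_le (g := fun x => |h x| * (n * (1 / (4 * a ^ 2))))
    (H.integrable.abs.mul_const _) (Filter.Eventually.of_forall h1)).trans ?_
  rw [integral_mul_const]
  calc (∫ x, |h x|) * (n * (1 / (4 * a ^ 2))) ≤ (n * (π * ρ ^ 2)) * (n * (1 / (4 * a ^ 2))) :=
        mul_le_mul_of_nonneg_right h0 (by positivity)
    _ = n ^ 2 * (π * ρ ^ 2) / (4 * a ^ 2) := by ring

end Pool.Agent.Lib.FR
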