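import Mathlib

/-!
# Fresnel smoothing (Lemma F of STEIN_SIMPLE.md): definitions and the Gaussian integral

`FE h a w = ∫ h(x) e(a |x - w|²) dx`, window `win s w₀ w = exp (-π |w - w₀|² / s²)`,
`kab s w₀ a b x y = ∫ win s w₀ w e(a |x - w|²) conj e(b |y - w|²) dw`.
-/

set_option autoImplicit false

open MeasureTheory Complex Real Set

namespace Pool.Agent.Lib.FR

/-- `e(t) = exp (2 π i t)`. -/
noncomputable def e1 (t : ℝ) : ℂ := Complex.exp ((2 * π * t : ℝ) * I)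

/-- The Gaussian window. -/
noncomputable def win (s : ℝ) (w₀ w : ℂ) : ℝ := Real.exp (-(π / s ^ 2 * ‖w - w₀‖ ^ 2))

/-- The Fresnel transform. -/
noncomputable def FE (h : ℂ → ℝ) (a : ℝ) (w : ℂ) : ℂ := ∫ x, (h x : ℂ) * e1 (a * ‖x - w‖ ^ 2)

/-- The windowed kernel. -/
noncomputable def kab (s : ℝ) (w₀ : ℂ) (a b : ℝ) (x y : ℂ) : ℂ :=
  ∫ w, (win s w₀ w : ℂ) * (e1 (a * ‖x - w‖ ^ 2) * (starRingEnd ℂ) (e1 (b * ‖y - w‖ ^ 2)))

theorem norm_e1 (t : ℝ) : ‖e1 t‖ = 1 := by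
  unfold e1
  exact Complex.norm_exp_ofReal_mul_I _

theorem continuous_e1 : Continuous e1 := by
  unfold e1
  fun_prop

theorem conj_e1 (t : ℝ) : (starRingEnd ℂ) (e1 t) = e1 (-t) := by
  unfold e1
  rw [← Complex.exp_conj]
  congr 1
  rw [map_mul, Complex.conj_I, Complex.conj_ofReal]
  push_cast
  ring

theorem e1_add (s t : ℝ) : e1 (s + t) = e1 s * e1 t := by
  unfold e1
  rw [← Complex.exp_add]
  congr 1
  push_cast
  ring

theorem win_pos (s : ℝ) (w₀ w : ℂ) : 0 < win s w₀ w := Real.exp_pos _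

theorem win_le_one (s : ℝ) (w₀ w : ℂ) : win s w₀ w ≤ 1 := by
  unfold win
  rw [Real.exp_le_one_iff]
  have : 0 ≤ π / s ^ 2 * ‖w - w₀‖ ^ 2 := by positivity
  linarith

theorem continuous_win (s : ℝ) (w₀ : ℂ) : Continuous (win s w₀) := by
  unfold win
  fun_prop

theorem integrable_gauss {c : ℝ} (hc : 0 < c) :
    Integrable (fun u : ℂ => Real.exp (-(c * ‖u‖ ^ 2))) := by
  have h := GaussianFourier.integrable_cexp_neg_mul_sq_norm_add (V := ℂ) (b := (c : ℂ))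
    (by simpa using hc) 0 0
  have h2 := h.norm
  refine h2.congr (Filter.Eventually.of_forall fun u => ?_)
  simp only [zero_mul, add_zero, Complex.norm_exp]
  congr 1
  have : (-(c : ℂ) * (‖u‖ : ℂ) ^ 2) = ((-(c * ‖u‖ ^ 2) : ℝ) : ℂ) := by push_cast; ring
  rw [this, Complex.ofReal_re]

theorem integral_gauss {c : ℝ} (hc : 0 < c) :
    ∫ u : ℂ, Real.exp (-(c * ‖u‖ ^ 2)) = π / c := by
  have h := GaussianFourier.integral_rexp_neg_mul_sq_norm (V := ℂ) hc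
  rw [Complex.finrank_real_complex] at h
  have h2 : (π / c) ^ (((2 : ℕ) : ℝ) / 2) = π / c := by
    rw [show (((2 : ℕ) : ℝ) / 2) = 1 by norm_num, Real.rpow_one]
  rw [h2] at h
  rw [← h]
  refine integral_congr_ae (Filter.Eventually.of_forall fun u => ?_)
  simp only
  congr 1
  ring

theorem integrable_win {s : ℝ} (hs : 0 < s) (w₀ : ℂ) : Integrable (win s w₀) := by
  have h := (integrable_gauss (c := π / s ^ 2) (by positivity)).comp_sub_right w₀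
  exact h

theorem integral_win {s : ℝ} (hs : 0 < s) (w₀ : ℂ) : ∫ w, win s w₀ w = s ^ 2 := by
  have h := integral_sub_right_eq_self (μ := volume)
    (fun u : ℂ => Real.exp (-(π / s ^ 2 * ‖u‖ ^ 2))) w₀
  have h2 : ∫ w, win s w₀ w = ∫ w : ℂ, Real.exp (-(π / s ^ 2 * ‖w - w₀‖ ^ 2)) := rfl
  rw [h2, h, integral_gauss (by positivity)]
  field_simp

private theorem phase_eq (a b : ℝ) (x y w₀ u : ℂ) :
    a * ‖x - (u + w₀)‖ ^ 2 - b * ‖y - (u + w₀)‖ ^ 2 =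
      (a - b) * ‖u‖ ^ 2 + 2 * inner ℝ ((a - b) • w₀ - (a • x - b • y)) u +
        (a * ‖x - w₀‖ ^ 2 - b * ‖y - w₀‖ ^ 2) := by
  have key : ∀ z : ℂ, ‖z - (u + w₀)‖ ^ 2 = ‖u‖ ^ 2 - 2 * inner ℝ (z - w₀) u + ‖z - w₀‖ ^ 2 := by
    intro z
    have : z - (u + w₀) = (z - w₀) - u := by ring
    rw [this, @norm_sub_sq_real]
    ring
  rw [key x, key y]
  have e : inner ℝ ((a - b) • w₀ - (a • x - b • y)) u =
      -(a * inner ℝ (x - w₀) u) + b * inner ℝ (y - w₀) u := by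
    have : (a - b) • w₀ - (a • x - b • y) = -(a • (x - w₀)) + b • (y - w₀) := by
      simp only [smul_sub, sub_smul]
      abel
    rw [this, inner_add_left, inner_neg_left, real_inner_smul_left, real_inner_smul_left]
  rw [e]
  ring

/-- The modulus of the windowed kernel. -/
theorem norm_kab_le {s : ℝ} (hs : 0 < s) (w₀ : ℂ) (a b : ℝ) (x y : ℂ) :
    ‖kab s w₀ a b x y‖ ≤ s ^ 2 * Real.exp (-(4 * π * ‖(a - b) • w₀ - (a • x - b • y)‖ ^ 2 *
      ((s ^ 2)⁻¹ / ((s ^ 2)⁻¹ ^ 2 + 4 * (a - b) ^ 2)))) := by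
  set ζ : ℂ := (a - b) • w₀ - (a • x - b • y) with hζ
  set B : ℂ := ((π * (s ^ 2)⁻¹ : ℝ) : ℂ) + ((-(2 * π * (a - b)) : ℝ) : ℂ) * I with hB
  have hBre : B.re = π * (s ^ 2)⁻¹ := by
    rw [hB, Complex.add_re, Complex.ofReal_re, Complex.re_ofReal_mul, Complex.I_re, mul_zero,
      add_zero]
  have hBim : B.im = -(2 * π * (a - b)) := by
    rw [hB, Complex.add_im, Complex.ofReal_im, Complex.im_ofReal_mul, Complex.I_im, mul_one,
      zero_add]
  have hBpos : 0 < B.re := by rw [hBre]; positivity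
  have h1 : kab s w₀ a b x y = ∫ u : ℂ, cexp (-B * ‖u‖ ^ 2 + (4 * π * I) * (inner ℝ ζ u : ℝ)) *
      e1 (a * ‖x - w₀‖ ^ 2 - b * ‖y - w₀‖ ^ 2) := by
    unfold kab
    rw [← integral_add_right_eq_self (μ := volume) (fun w => (win s w₀ w : ℂ) *
      (e1 (a * ‖x - w‖ ^ 2) * (starRingEnd ℂ) (e1 (b * ‖y - w‖ ^ 2)))) w₀]
    refine integral_congr_ae (Filter.Eventually.of_forall fun u => ?_)
    simp only
    rw [conj_e1, ← e1_add, ← sub_eq_add_neg, phase_eq a b x y w₀ u, e1_add, ← mul_assoc]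
    congr 1
    unfold win e1
    rw [add_sub_cancel_right, Complex.ofReal_exp, ← Complex.exp_add]
    congr 1
    rw [hB]
    push_cast
    field_simp
    ring
  rw [h1, integral_mul_const, norm_mul, norm_e1, mul_one,
    GaussianFourier.integral_cexp_neg_mul_sq_norm_add hBpos (4 * π * I) ζ, norm_mul,
    Complex.finrank_real_complex]
  have hB0 : B ≠ 0 := by
    intro h
    rw [h] at hBpos
    simp at hBpos
  have h2 : ((π : ℂ) / B) ^ (((2 : ℕ) : ℂ) / 2) = (π : ℂ) / B := by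
    rw [show (((2 : ℕ) : ℂ) / 2) = 1 by norm_num, Complex.cpow_one]
  rw [h2, norm_div, Complex.norm_exp]
  have h3 : ‖(π : ℂ)‖ = π := by
    rw [Complex.norm_real, Real.norm_eq_abs, abs_of_pos Real.pi_pos]
  have h4 : π / ‖B‖ ≤ s ^ 2 := by
    have h5 : π * (s ^ 2)⁻¹ ≤ ‖B‖ := by
      rw [← hBre]
      exact Complex.re_le_norm B
    rw [div_le_iff₀ (norm_pos_iff.2 hB0)]
    calc π = s ^ 2 * (π * (s ^ 2)⁻¹) := by field_simp
      _ ≤ s ^ 2 * ‖B‖ := mul_le_mul_of_nonneg_left h5 (by positivity)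
  rw [h3]
  refine mul_le_mul h4 (le_of_eq ?_) (Real.exp_pos _).le (by positivity)
  congr 1
  have h5 : (4 * (π : ℂ) * I) ^ 2 * (‖ζ‖ : ℂ) ^ 2 / (4 * B) =
      ((-(4 * π ^ 2 * ‖ζ‖ ^ 2) : ℝ) : ℂ) * B⁻¹ := by
    push_cast
    rw [mul_pow, mul_pow, Complex.I_sq]
    field_simp
  rw [h5, Complex.re_ofReal_mul, Complex.inv_re, hBre, Complex.normSq_apply, hBre, hBim]
  have hs2 : (s ^ 2)⁻¹ ^ 2 + 4 * (a - b) ^ 2 ≠ 0 := by positivity
  have e2 : π * (s ^ 2)⁻¹ * (π * (s ^ 2)⁻¹) + -(2 * π * (a - b)) * -(2 * π * (a - b)) =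
      π ^ 2 * ((s ^ 2)⁻¹ ^ 2 + 4 * (a - b) ^ 2) := by ring
  rw [e2]
  have hp := Real.pi_ne_zero
  field_simp

end Pool.Agent.Lib.FR
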