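import Pool.Agent.Lib.MP_b9430d_co.FR.Fub

/-!
# Fresnel smoothing: the square of a finite sum of Fresnel transforms
-/

set_option autoImplicit false

open MeasureTheory Complex Real Set

namespace Pool.Agent.Lib.FR

private theorem quad_int {n ρ : ℝ} {h : ℂ → ℝ} (H : Good n ρ h) {s : ℝ} (hs : 0 < s) (w₀ : ℂ)
    (a b : ℝ) :
    Integrable (fun w => (win s w₀ w : ℂ) * (FE h a w * (starRingEnd ℂ) (FE h b w))) := by
  have hc : Continuous (fun w => (win s w₀ w : ℂ) * (FE h a w * (starRingEnd ℂ) (FE h b w))) :=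
    (Complex.continuous_ofReal.comp (continuous_win s w₀)).mul
      ((continuous_FE H a).mul (Complex.continuous_conj.comp (continuous_FE H b)))
  refine ((integrable_win hs w₀).mul_const ((∫ x, |h x|) * (∫ x, |h x|))).mono'
    hc.aestronglyMeasurable (Filter.Eventually.of_forall fun w => ?_)
  rw [norm_mul, norm_mul, RCLike.norm_conj, Complex.norm_real, Real.norm_eq_abs,
    abs_of_pos (win_pos _ _ _)]
  exact mul_le_mul_of_nonneg_left (mul_le_mul (norm_FE_le _ _ _) (norm_FE_le _ _ _)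
    (norm_nonneg _) (integral_nonneg fun x => abs_nonneg _)) (win_pos _ _ _).le

private theorem quad_intR {n ρ : ℝ} {h : ℂ → ℝ} (H : Good n ρ h) {s : ℝ} (hs : 0 < s) (w₀ : ℂ)
    (a b : ℝ) : Integrable (fun w => win s w₀ w * (‖FE h a w‖ * ‖FE h b w‖)) := by
  refine (quad_int H hs w₀ a b).norm.congr (Filter.Eventually.of_forall fun w => ?_)
  simp only [norm_mul, RCLike.norm_conj, Complex.norm_real, Real.norm_eq_abs,
    abs_of_pos (win_pos _ _ _)]

private theorem quad_diag {h : ℂ → ℝ} (s : ℝ) (w₀ : ℂ) (a : ℝ) :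
    JJ s w₀ h a a = ((∫ w, win s w₀ w * (‖FE h a w‖ * ‖FE h a w‖) : ℝ) : ℂ) := by
  unfold JJ
  rw [← integral_complex_ofReal]
  refine integral_congr_ae (Filter.Eventually.of_forall fun w => ?_)
  simp only
  rw [Complex.mul_conj, Complex.normSq_eq_norm_sq]
  push_cast
  ring

private theorem quad_diag' {h : ℂ → ℝ} (s : ℝ) (w₀ : ℂ) (a : ℝ) :
    ‖JJ s w₀ h a a‖ = ∫ w, win s w₀ w * (‖FE h a w‖ * ‖FE h a w‖) := by
  rw [quad_diag, Complex.norm_real, Real.norm_eq_abs, abs_of_nonneg]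
  exact integral_nonneg fun w => mul_nonneg (win_pos _ _ _).le (by positivity)

private theorem quad_near {n ρ : ℝ} {h : ℂ → ℝ} (H : Good n ρ h) {s : ℝ} (hs : 0 < s) (w₀ : ℂ)
    (a b u v : ℝ) : |u| * |v| * ‖JJ s w₀ h a b‖ ≤
      (u ^ 2 * ‖JJ s w₀ h a a‖ + v ^ 2 * ‖JJ s w₀ h b b‖) / 2 := by
  have h1 : ‖JJ s w₀ h a b‖ ≤ ∫ w, win s w₀ w * (‖FE h a w‖ * ‖FE h b w‖) := by
    unfold JJ
    refine (norm_integral_le_integral_norm _).trans (le_of_eq ?_)
    refine integral_congr_ae (Filter.Eventually.of_forall fun w => ?_)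
    simp only [norm_mul, RCLike.norm_conj, Complex.norm_real, Real.norm_eq_abs,
      abs_of_pos (win_pos _ _ _)]
  rw [quad_diag', quad_diag']
  calc |u| * |v| * ‖JJ s w₀ h a b‖ ≤
      |u| * |v| * ∫ w, win s w₀ w * (‖FE h a w‖ * ‖FE h b w‖) :=
        mul_le_mul_of_nonneg_left h1 (by positivity)
    _ = ∫ w, |u| * |v| * (win s w₀ w * (‖FE h a w‖ * ‖FE h b w‖)) := by
        rw [integral_const_mul]
    _ ≤ ∫ w, (u ^ 2 * (win s w₀ w * (‖FE h a w‖ * ‖FE h a w‖)) +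
          v ^ 2 * (win s w₀ w * (‖FE h b w‖ * ‖FE h b w‖))) / 2 := by
        refine integral_mono ((quad_intR H hs w₀ a b).const_mul _)
          ((((quad_intR H hs w₀ a a).const_mul _).add ((quad_intR H hs w₀ b b).const_mul _)).div_const 2)
          fun w => ?_
        simp only
        have hw := win_pos s w₀ w
        have key : |u| * |v| * (‖FE h a w‖ * ‖FE h b w‖) ≤
            (u ^ 2 * (‖FE h a w‖ * ‖FE h a w‖) + v ^ 2 * (‖FE h b w‖ * ‖FE h b w‖)) / 2 := by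
          nlinarith [sq_nonneg (|u| * ‖FE h a w‖ - |v| * ‖FE h b w‖), sq_abs u, sq_abs v]
        calc |u| * |v| * (win s w₀ w * (‖FE h a w‖ * ‖FE h b w‖)) =
            win s w₀ w * (|u| * |v| * (‖FE h a w‖ * ‖FE h b w‖)) := by ring
          _ ≤ win s w₀ w * ((u ^ 2 * (‖FE h a w‖ * ‖FE h a w‖) +
              v ^ 2 * (‖FE h b w‖ * ‖FE h b w‖)) / 2) := mul_le_mul_of_nonneg_left key hw.le
          _ = _ := by ring
    _ = _ := by
        rw [integral_div, integral_add ((quad_intR H hs w₀ a a).const_mul _)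
          ((quad_intR H hs w₀ b b).const_mul _), integral_const_mul, integral_const_mul]

/-- The finite sum of Fresnel transforms. -/
noncomputable def DS (S : Finset ℚ) (c : ℚ → ℝ) (h : ℂ → ℝ) (w : ℂ) : ℂ :=
  ∑ a ∈ S, (c a : ℂ) * FE h (a : ℝ) w

theorem continuous_DS {n ρ : ℝ} {h : ℂ → ℝ} (H : Good n ρ h) (S : Finset ℚ) (c : ℚ → ℝ) :
    Continuous (DS S c h) := by
  unfold DS
  exact continuous_finsetSum _ fun a _ => continuous_const.mul (continuous_FE H _)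

theorem norm_DS_le (S : Finset ℚ) (c : ℚ → ℝ) (h : ℂ → ℝ) (w : ℂ) :
    ‖DS S c h w‖ ≤ (∑ a ∈ S, |c a|) * ∫ x, |h x| := by
  unfold DS
  refine (norm_sum_le _ _).trans ?_
  rw [Finset.sum_mul]
  refine Finset.sum_le_sum fun a _ => ?_
  rw [norm_mul, Complex.norm_real, Real.norm_eq_abs]
  exact mul_le_mul_of_nonneg_left (norm_FE_le _ _ _) (abs_nonneg _)

private theorem quad_expand {n ρ : ℝ} {h : ℂ → ℝ} (H : Good n ρ h) {s : ℝ} (hs : 0 < s) (w₀ : ℂ)
    (S : Finset ℚ) (c : ℚ → ℝ) :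
    ((∫ w, win s w₀ w * ‖DS S c h w‖ ^ 2 : ℝ) : ℂ) =
      ∑ a ∈ S, ∑ b ∈ S, ((c a : ℂ) * (c b : ℂ)) * JJ s w₀ h a b := by
  rw [← integral_complex_ofReal]
  have h1 : ∀ w, (((win s w₀ w * ‖DS S c h w‖ ^ 2 : ℝ)) : ℂ) = ∑ a ∈ S, ∑ b ∈ S,
      ((c a : ℂ) * (c b : ℂ)) * ((win s w₀ w : ℂ) * (FE h a w * (starRingEnd ℂ) (FE h b w))) := by
    intro w
    push_cast
    have h2 : ((‖DS S c h w‖ : ℂ)) ^ 2 = DS S c h w * (starRingEnd ℂ) (DS S c h w) := by
      rw [Complex.mul_conj, Complex.normSq_eq_norm_sq]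
      push_cast
      ring
    rw [h2]
    unfold DS
    rw [map_sum, Finset.sum_mul_sum, Finset.mul_sum]
    refine Finset.sum_congr rfl fun a _ => ?_
    rw [Finset.mul_sum]
    refine Finset.sum_congr rfl fun b _ => ?_
    rw [map_mul, Complex.conj_ofReal]
    ring
  have h3 : ∫ w, (((win s w₀ w * ‖DS S c h w‖ ^ 2 : ℝ)) : ℂ) = ∫ w, ∑ a ∈ S, ∑ b ∈ S,
      ((c a : ℂ) * (c b : ℂ)) * ((win s w₀ w : ℂ) * (FE h a w * (starRingEnd ℂ) (FE h b w))) :=
    integral_congr_ae (Filter.Eventually.of_forall h1)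
  refine h3.trans ?_
  have hI : ∀ a b : ℚ, Integrable (fun w => ((c a : ℂ) * (c b : ℂ)) *
      ((win s w₀ w : ℂ) * (FE h (a : ℝ) w * (starRingEnd ℂ) (FE h (b : ℝ) w)))) :=
    fun a b => (quad_int H hs w₀ (a : ℝ) (b : ℝ)).const_mul _
  refine (integral_finsetSum S fun a _ => integrable_finsetSum S fun b _ => hI a b).trans ?_
  refine Finset.sum_congr rfl fun a _ => ?_
  refine (integral_finsetSum S fun b _ => hI a b).trans ?_
  refine Finset.sum_congr rfl fun b _ => ?_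
  rw [integral_const_mul]
  rfl

open Classical in
/-- The quadratic estimate. -/
theorem quad {n ρ : ℝ} {h : ℂ → ℝ} (H : Good n ρ h) (hρ : 0 ≤ ρ) {s : ℝ} (hs : 0 < s) (w₀ : ℂ)
    (S : Finset ℚ) (c : ℚ → ℝ) (h0 : ∀ a ∈ S, a ≠ 0) (near : ℚ → ℚ → Prop)
    (hsym : ∀ a b, near a b → near b a) (K : ℝ) (hK : 0 ≤ K)
    (hfar : ∀ a ∈ S, ∀ b ∈ S, ¬ near a b → ∀ x y : ℂ, ‖x‖ ≤ ρ → ‖y‖ ≤ ρ →
      ‖kab s w₀ a b x y‖ ≤ K) :
    ∫ w, win s w₀ w * ‖DS S c h w‖ ^ 2 ≤
      n ^ 2 * (π * ρ ^ 2) * ∑ a ∈ S, c a ^ 2 * ((S.filter (near a)).card : ℝ) / (4 * (a : ℝ) ^ 2) +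
        (∑ a ∈ S, |c a|) ^ 2 * (K * (n * (π * ρ ^ 2)) ^ 2) := by
  set I := ∫ w, win s w₀ w * ‖DS S c h w‖ ^ 2 with hI
  have hI0 : 0 ≤ I := integral_nonneg fun w => mul_nonneg (win_pos _ _ _).le (by positivity)
  have h1 : I = ‖((I : ℝ) : ℂ)‖ := by
    rw [Complex.norm_real, Real.norm_eq_abs, abs_of_nonneg hI0]
  rw [h1, hI, quad_expand H hs w₀ S c]
  have h2 : ∀ a ∈ S, ∀ b ∈ S, ‖((c a : ℂ) * (c b : ℂ)) * JJ s w₀ h a b‖ ≤
      (if near a b then (c a ^ 2 * ‖JJ s w₀ h a a‖ + c b ^ 2 * ‖JJ s w₀ h b b‖) / 2 else 0) +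
        |c a| * |c b| * (K * (n * (π * ρ ^ 2)) ^ 2) := by
    intro a ha b hb
    rw [norm_mul, norm_mul, Complex.norm_real, Complex.norm_real, Real.norm_eq_abs,
      Real.norm_eq_abs]
    have hp : 0 ≤ |c a| * |c b| * (K * (n * (π * ρ ^ 2)) ^ 2) := by positivity
    by_cases hn : near a b
    · rw [if_pos hn]
      have := quad_near H hs w₀ (a : ℝ) (b : ℝ) (c a) (c b)
      linarith
    · rw [if_neg hn, zero_add]
      exact mul_le_mul_of_nonneg_left (JJ_far H hρ hs w₀ a b K hK (hfar a ha b hb hn))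
        (by positivity)
  refine (norm_sum_le _ _).trans ((Finset.sum_le_sum fun a ha => (norm_sum_le _ _).trans
    (Finset.sum_le_sum fun b hb => h2 a ha b hb)).trans ?_)
  simp only [Finset.sum_add_distrib]
  refine add_le_add ?_ (le_of_eq ?_)
  · set u : ℚ → ℝ := fun a => c a ^ 2 * ‖JJ s w₀ h a a‖ with hu
    have e1 : ∑ a ∈ S, ∑ b ∈ S, (if near a b then (u a + u b) / 2 else 0) =
        ∑ a ∈ S, u a * ((S.filter (near a)).card : ℝ) := by
      have e2 : ∑ a ∈ S, ∑ b ∈ S, (if near a b then (u a + u b) / 2 else 0) =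
          (∑ a ∈ S, ∑ b ∈ S, (if near a b then u a else 0)) / 2 +
            (∑ a ∈ S, ∑ b ∈ S, (if near a b then u b else 0)) / 2 := by
        rw [Finset.sum_div, Finset.sum_div, ← Finset.sum_add_distrib]
        refine Finset.sum_congr rfl fun a _ => ?_
        rw [Finset.sum_div, Finset.sum_div, ← Finset.sum_add_distrib]
        refine Finset.sum_congr rfl fun b _ => ?_
        split_ifs <;> ring
      have e3 : ∑ a ∈ S, ∑ b ∈ S, (if near a b then u b else 0) =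
          ∑ a ∈ S, ∑ b ∈ S, (if near a b then u a else 0) := by
        rw [Finset.sum_comm]
        refine Finset.sum_congr rfl fun a _ => Finset.sum_congr rfl fun b _ => ?_
        by_cases hab : near a b
        · rw [if_pos hab, if_pos (hsym a b hab)]
        · rw [if_neg hab, if_neg fun h => hab (hsym b a h)]
      rw [e2, e3]
      have e4 : ∀ a, ∑ b ∈ S, (if near a b then u a else 0) =
          u a * ((S.filter (near a)).card : ℝ) := by
        intro a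
        rw [← Finset.sum_filter, Finset.sum_const, nsmul_eq_mul, mul_comm]
      rw [Finset.sum_congr rfl fun a _ => e4 a]
      ring
    have e5 : ∑ a ∈ S, ∑ b ∈ S, (if near a b then
        (c a ^ 2 * ‖JJ s w₀ h a a‖ + c b ^ 2 * ‖JJ s w₀ h b b‖) / 2 else 0) =
        ∑ a ∈ S, ∑ b ∈ S, (if near a b then (u a + u b) / 2 else 0) := rfl
    rw [e5, e1, Finset.mul_sum]
    refine Finset.sum_le_sum fun a ha => ?_
    have hd := JJ_diag H hρ hs w₀ (a := (a : ℝ)) (by exact_mod_cast h0 a ha)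
    rw [hu]
    simp only
    calc c a ^ 2 * ‖JJ s w₀ h a a‖ * ((S.filter (near a)).card : ℝ) ≤
        c a ^ 2 * (n ^ 2 * (π * ρ ^ 2) / (4 * (a : ℝ) ^ 2)) * ((S.filter (near a)).card : ℝ) :=
          mul_le_mul_of_nonneg_right (mul_le_mul_of_nonneg_left hd (sq_nonneg _)) (Nat.cast_nonneg _)
      _ = _ := by ring
  · rw [pow_two (∑ a ∈ S, |c a|), Finset.sum_mul_sum, Finset.sum_mul]
    refine Finset.sum_congr rfl fun a _ => ?_
    rw [Finset.sum_mul]

end Pool.Agent.Lib.FR
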